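import Pool.Agent.H41.Stab

set_option autoImplicit false

namespace Pool.Agent.Results.MP_711a76_lc.FiveQubit

open Pool.Agent.H41.Stab

/-- Negated form of Q1: a weight-preserving isometry between stabilizer codes of distance greater
than 2 that extends to no monomial transformation (q = 2, n = 5, the five-qubit code). -/
theorem result : ∃ (q n : ℕ) (C D : Submodule (ZMod q) (Fin n → ZMod q × ZMod q))
    (f : (Fin n → ZMod q × ZMod q) → (Fin n → ZMod q × ZMod q)),
    q.Prime ∧ IsStab C ∧ IsStab D ∧ 2 < codeDist C ∧ 2 < codeDist D ∧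
      IsIsometry C D f ∧ ¬ Extends C f :=
  ⟨2, 5, C5, C5, F, Nat.prime_two, stab, stab, dist5, dist5, F_iso, F_not⟩

end Pool.Agent.Results.MP_711a76_lc.FiveQubit
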